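import Mathlib
import Pool.Agent.H.MP_b76267_pr.Geo

set_option autoImplicit false
open Real MeasureTheory
open scoped ENNReal

namespace Pool.Agent.Results.MP_b76267_pr.Wavy

abbrev E := EuclideanSpace ℝ (Fin 3)

/-- `Ω + v_i = Ωᶜ` and `-Ω = Ωᶜ` away from the boundary, and the boundary is invariant
(the identities cannot hold on the boundary itself: take `x = 0` in `-Ω = Ωᶜ`) -/
def Periodic (Ω : Set E) : Prop :=
  (∀ x ∉ frontier Ω, (∀ i, x + EuclideanSpace.single i 1 ∈ Ω ↔ x ∉ Ω) ∧ (-x ∈ Ω ↔ x ∉ Ω)) ∧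
  ∀ x, (∀ i, x + EuclideanSpace.single i 1 ∈ frontier Ω ↔ x ∈ frontier Ω) ∧
    (-x ∈ frontier Ω ↔ x ∈ frontier Ω)

/-- `Ω = {g ≥ 0}` and its boundary is the regular zero set of the smooth function `g` -/
def SmoothBoundary (Ω : Set E) : Prop :=
  ∃ g : E → ℝ, ContDiff ℝ (⊤ : ℕ∞) g ∧ Ω = {x | 0 ≤ g x} ∧ frontier Ω = {x | g x = 0} ∧
    ∀ x, g x = 0 → fderiv ℝ g x ≠ 0

/-- Gaussian surface area, for the normalised two-dimensional Hausdorff measure -/
noncomputable def area (Ω : Set E) : ℝ≥0∞ :=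
  ∫⁻ x in frontier Ω, ENNReal.ofReal ((2 * π) ^ (-(3 : ℝ) / 2) * exp (-‖x‖ ^ 2 / 2)) ∂μHE[2]

/-- the periodic half space with all signs `+1` -/
def B : Set E := {x | 0 ≤ sin (π * (x 0 + x 1 + x 2))}

open H.MP_b76267_pr

theorem good (h : E → ℝ) (hc : ContDiff ℝ (⊤ : ℕ∞) h)
    (hl : ∀ x t, h (x + t • EuclideanSpace.single 1 (1 : ℝ)) = h x + t)
    (hp : ∀ x i, h (x + EuclideanSpace.single i 1) = h x + 1) (ho : ∀ x, h (-x) = -h x) :
    Periodic {x | 0 ≤ sin (π * h x)} ∧ SmoothBoundary {x | 0 ≤ sin (π * h x)} := by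
  have hf := front h hc.continuous hl
  have hg : ContDiff ℝ (⊤ : ℕ∞) fun x => sin (π * h x) := (contDiff_const.mul hc).sin
  refine ⟨⟨fun x hx => ?_, fun x => ?_⟩, _, hg, rfl, hf, fun x hx h0 => ?_⟩
  · rw [hf] at hx
    simp only [Set.mem_ofPred_eq, hp, ho, mul_add, mul_one, sin_add_pi, mul_neg, sin_neg,
      neg_nonneg, not_le] at hx ⊢
    have := (lt_iff_le_and_ne (a := sin (π * h x)) (b := 0)).trans (and_iff_left hx)
    exact ⟨fun _ => this.symm, this.symm⟩
  · simp [hf, hp, ho, mul_add, sin_add_pi]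
  · have h1 := (hg.differentiable (by simp) x).hasFDerivAt
    rw [h0] at h1
    have h2 : HasDerivAt (fun t : ℝ => x + t • EuclideanSpace.single 1 (1 : ℝ))
        (EuclideanSpace.single 1 (1 : ℝ)) 0 := by
      simpa using ((hasDerivAt_id (0 : ℝ)).smul_const (EuclideanSpace.single (1 : Fin 3) (1 : ℝ))).const_add x
    have h3 := h1.comp_hasDerivAt_of_eq 0 h2 (by simp)
    simp only [Function.comp_def, hl] at h3
    have h4 := (((hasDerivAt_id (0 : ℝ)).const_add (h x)).const_mul π).sin.unique h3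
    have h5 : cos (π * h x) = 0 := by simpa using h4
    have := sin_sq_add_cos_sq (π * h x)
    rw [h5, hx] at this
    norm_num at this

theorem result : Periodic B ∧ SmoothBoundary B ∧ area B < ⊤ ∧
    ∃ Ω : Set E, Periodic Ω ∧ SmoothBoundary Ω ∧ area Ω < area B := by
  obtain ⟨ε, h0, h1, h2, h3⟩ := main
  obtain ⟨u, u1, u2, u3⟩ := inv_ex ε h0 h1
  have u4 : ∀ t, u (t + 1) = u t + 1 := fun t => by
    rw [← u3 (u t + 1), mul_add, mul_one, sin_add_two_pi, add_right_comm, u2]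
  have u5 : ∀ t, u (-t) = -u t := fun t => by
    rw [← u3 (-u t), mul_neg, sin_neg, mul_neg, ← neg_add, u2]
  have l0 : ∀ (x : E) (t : ℝ), (fun x : E => x 0 + x 1 + x 2)
      (x + t • EuclideanSpace.single 1 (1 : ℝ))
      = x 0 + x 1 + x 2 + t := fun x t => by simp; ring
  have l1 : ∀ (x : E) (t : ℝ), (fun x : E => x 0 + x 1 + x 2 - 3 * ε * sin (2 * π * u (x 0)))
      (x + t • EuclideanSpace.single 1 (1 : ℝ))
      = x 0 + x 1 + x 2 - 3 * ε * sin (2 * π * u (x 0)) + t := fun x t => by simp; ring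
  have c0 : ContDiff ℝ (⊤ : ℕ∞) fun x : E => x 0 + x 1 + x 2 := by fun_prop
  have c1 : ContDiff ℝ (⊤ : ℕ∞) fun x : E => x 0 + x 1 + x 2 - 3 * ε * sin (2 * π * u (x 0)) :=
    c0.sub (contDiff_const.mul (contDiff_const.mul ((u1.of_le le_top).comp (by fun_prop))).sin)
  have g0 := good _ c0 l0 (fun x i => by fin_cases i <;> simp <;> ring) fun x => by simp; ring
  have g1 := good _ c1 l1 (fun x i => by
    fin_cases i <;> simp [u4, mul_add, sin_add_two_pi] <;> ring) fun x => by simp [u5]; ring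
  have f0 : frontier B = ⋃ k, Set.range (FF 0 k) := by
    rw [← zero_set 0 id (by simp) (by simp), B, front _ c0.continuous l0]; simp
  refine ⟨g0.1, g0.2, by rw [area, f0]; exact h3, _, g1.1, g1.2, ?_⟩
  rw [area, area, f0, front _ c1.continuous l1, zero_set ε u u2 u3]
  exact h2

end Pool.Agent.Results.MP_b76267_pr.Wavy
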